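import Mathlib

/-! # Package DEC of the project EN, core -/

set_option autoImplicit false

namespace Pool.Agent.P8H94.EN

open Finset MeasureTheory Filter Topology Complex

/-- the hypothesis of CHB (copy of the statement) -/
def ChB : Prop := ∀ (K N : ℕ) (c : Fin N → ℂ) (q : Fin N → ℝ) (F G : ℝ → ℝ) (σ Q err T : ℝ)
  (Y : ℝ → Fin K → ℝ) (S : Matrix (Fin K) (Fin K) ℝ), 0 < T → 0 ≤ err → Continuous Y →
  (∀ x, (F x : ℂ) = ∑ m, c m * cexp (I * ((q m * x : ℝ) : ℂ))) →
  (∀ x, (G x : ℂ) = ∑ m, c m * ((Real.exp (-(σ ^ 2 * q m ^ 2) / 2) : ℝ) : ℂ) *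
    cexp (I * ((q m * x : ℝ) : ℂ))) → (∀ x, |G x| ≤ Q) →
  (S - σ ^ 2 • (1 : Matrix (Fin K) (Fin K) ℝ)).PosSemidef →
  (∀ m : Fin K → Fin N, ‖((1 / T : ℝ) : ℂ) * (∫ t in T..(2 * T),
      cexp (I * ((∑ i, q (m i) * Y t i : ℝ) : ℂ))) -
      cexp ((-(∑ i, ∑ k, q (m i) * S i k * q (m k)) / 2 : ℝ) : ℂ)‖ ≤ err) →
  ∀ v : Fin K → ℝ, 1 / T * (∫ t in T..(2 * T), ∏ i, F (Y t i - v i)) ≤
    Q ^ K + (∑ m, ‖c m‖) ^ K * err

theorem dec_core (hchb : ChB) (p ε δ : ℝ) (hp : 0 ≤ p) (hε : 0 < ε)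
    (htp : ∃ (δ' σ : ℝ) (N : ℕ) (c : Fin N → ℂ) (q : Fin N → ℝ)
      (f g : ℝ → ℝ), δ < δ' ∧ 0 < σ ∧ σ < 1 ∧
      (∀ x, (f x : ℂ) = ∑ m, c m * cexp (I * ((q m * x : ℝ) : ℂ))) ∧
      (∀ x, (g x : ℂ) = ∑ m, c m * ((Real.exp (-(σ ^ 2 * q m ^ 2) / 2) : ℝ) : ℂ) *
        cexp (I * ((q m * x : ℝ) : ℂ))) ∧
      (∀ x, 0 ≤ f x) ∧ (∀ x, |x| ≤ δ' → 1 ≤ f x) ∧ (∀ x, 0 ≤ g x) ∧ ∀ x, g x ≤ p + ε / 2) :
    ∃ δ' σ c₁ B Ξ : ℝ, δ < δ' ∧ 0 < σ ∧ σ < 1 ∧ 0 < c₁ ∧
  0 ≤ B ∧ 0 ≤ Ξ ∧ ∀ (K : ℕ) (T err : ℝ) (Y : ℝ → Fin K → ℝ) (S : Matrix (Fin K) (Fin K) ℝ),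
  0 < T → 0 ≤ err → Continuous Y → (S - σ ^ 2 • (1 : Matrix (Fin K) (Fin K) ℝ)).PosSemidef →
  (∀ u : Fin K → ℝ, (∀ i, |u i| ≤ Ξ) → ‖((1 / T : ℝ) : ℂ) * (∫ t in T..(2 * T),
      cexp (I * ((∑ i, u i * Y t i : ℝ) : ℂ))) -
      cexp ((-(∑ i, ∑ k, u i * S i k * u k) / 2 : ℝ) : ℂ)‖ ≤ err) →
  ∀ v : Fin K → ℝ, volume {t ∈ Set.Icc T (2 * T) | (p + ε) * K ≤
    (({i | |Y t i - v i| ≤ δ'} : Set (Fin K)).ncard : ℝ)} ≤
    ENNReal.ofReal ((Real.exp (-(c₁ * K)) + Real.exp (B * K) * err) * T) := by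
  classical
  obtain ⟨δ', σ, N, c, q, f, g, hδ, hσ0, hσ1, hf, hg, hf0, hf1, hg0, hgp⟩ := htp
  have hpe : 0 < p + ε := by linarith
  set lam : ℝ := ε / (4 * (p + ε)) with hlam
  have hlam0 : 0 < lam := by positivity
  have hlame : lam * (p + ε) = ε / 4 := by
    rw [hlam]
    field_simp
  set c' : Fin (N + 1) → ℂ := Fin.cons 1 (fun m => (lam : ℂ) * c m) with hc'
  set q' : Fin (N + 1) → ℝ := Fin.cons 0 q with hq'
  set F : ℝ → ℝ := fun x => 1 + lam * f x with hF
  set G : ℝ → ℝ := fun x => 1 + lam * g x with hG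
  set Q : ℝ := 1 + lam * (p + ε / 2) with hQ
  set Z : ℝ := ∑ m, ‖c' m‖ with hZ
  have hZ1 : 1 ≤ Z := by
    rw [hZ, Fin.sum_univ_succ]
    have h1 : ‖c' 0‖ = 1 := by
      rw [hc']
      simp
    rw [h1]
    have : 0 ≤ ∑ i : Fin N, ‖c' i.succ‖ := sum_nonneg fun _ _ => norm_nonneg _
    linarith
  set c₁ : ℝ := lam * ε / 4 with hc₁
  have hc₁0 : 0 < c₁ := by positivity
  -- the key inequality
  have hlog : Real.log Q ≤ (p + ε) * Real.log (1 + lam) - c₁ := by
    have hQ0 : 0 < Q := by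
      rw [hQ]
      positivity
    have h1 : Real.log Q ≤ lam * (p + ε / 2) := by
      have := Real.log_le_sub_one_of_pos hQ0
      rw [hQ] at this ⊢
      linarith
    have h2 : lam * (1 - lam) ≤ Real.log (1 + lam) := by
      have h3 : 0 < 1 + lam := by linarith
      have h4 := Real.one_sub_inv_le_log_of_pos h3
      have h5 : lam * (1 - lam) ≤ 1 - (1 + lam)⁻¹ := by
        have h6 : 1 - (1 + lam)⁻¹ = lam / (1 + lam) := by
          field_simp
          ring
        rw [h6, le_div_iff₀ h3]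
        nlinarith [sq_nonneg lam, mul_pos hlam0 (mul_pos hlam0 hlam0)]
      linarith
    have h7 : (p + ε) * (lam * (1 - lam)) ≤ (p + ε) * Real.log (1 + lam) :=
      mul_le_mul_of_nonneg_left h2 hpe.le
    have h8 : (p + ε) * (lam * (1 - lam)) = lam * (p + ε) - lam * (lam * (p + ε)) := by ring
    rw [hlame] at h8
    have h9 : lam * (p + ε / 2) + c₁ = ε / 4 - lam * (ε / 4) := by
      have h10 : lam * (p + ε / 2) = lam * (p + ε) - lam * (ε / 2) := by ring
      rw [h10, hlame, hc₁]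
      ring
    linarith
  refine ⟨δ', σ, c₁, Real.log Z, ∑ m, |q m|, hδ, hσ0, hσ1, hc₁0, Real.log_nonneg hZ1,
    sum_nonneg fun _ _ => abs_nonneg _, ?_⟩
  intro K T err Y S hT herr hY hS hchar v
  have hq'le : ∀ m, |q' m| ≤ ∑ m, |q m| := by
    intro m
    refine Fin.cases ?_ (fun j => ?_) m
    · rw [hq', Fin.cons_zero, abs_zero]
      exact sum_nonneg fun _ _ => abs_nonneg _
    · rw [hq', Fin.cons_succ]
      exact single_le_sum (f := fun m => |q m|) (fun _ _ => abs_nonneg _) (mem_univ j)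
  have hmain := hchb K (N + 1) c' q' F G σ Q err T Y S hT herr hY
    (fun x => by
      rw [Fin.sum_univ_succ, hc', hq']
      simp only [Fin.cons_zero, Fin.cons_succ]
      rw [hF]
      push_cast
      rw [hf x, mul_sum]
      simp only [zero_mul, mul_zero, Complex.exp_zero, mul_one]
      congr 1
      refine sum_congr rfl fun m _ => ?_
      push_cast
      ring)
    (fun x => by
      rw [Fin.sum_univ_succ, hc', hq']
      simp only [Fin.cons_zero, Fin.cons_succ]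
      rw [hG]
      push_cast
      rw [hg x, mul_sum]
      simp only [zero_mul, mul_zero, Complex.exp_zero, mul_one, ne_eq, OfNat.ofNat_ne_zero,
        not_false_eq_true, zero_pow, neg_zero, zero_div]
      congr 1
      refine sum_congr rfl fun m _ => ?_
      push_cast
      ring)
    (fun x => by
      have h1 := hg0 x
      have h2 := hgp x
      rw [hG, hQ]
      have h3 : 0 ≤ lam * g x := mul_nonneg hlam0.le h1
      show |1 + lam * g x| ≤ _
      rw [abs_of_nonneg (by linarith)]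
      have := mul_le_mul_of_nonneg_left h2 hlam0.le
      linarith)
    hS (fun m => hchar (fun i => q' (m i)) fun i => hq'le _) v
  -- Markov
  have hFc : Continuous F := by
    have h1 : Continuous f := by
      have h2 : f = fun x => (∑ m, c m * cexp (I * ((q m * x : ℝ) : ℂ))).re := by
        funext x
        rw [← hf x, Complex.ofReal_re]
      rw [h2]
      fun_prop
    rw [hF]
    fun_prop
  have hPc : Continuous fun t => ∏ i, F (Y t i - v i) := by
    refine continuous_finsetProd _ fun i _ => hFc.comp ?_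
    exact (((continuous_apply i).comp hY).sub continuous_const)
  have hF1 : ∀ x, 1 ≤ F x := by
    intro x
    have := mul_nonneg hlam0.le (hf0 x)
    show 1 ≤ 1 + lam * f x
    linarith
  set E : Set ℝ := {t ∈ Set.Icc T (2 * T) | (p + ε) * K ≤
    (({i | |Y t i - v i| ≤ δ'} : Set (Fin K)).ncard : ℝ)} with hE
  set R : ℝ := (1 + lam) ^ ((p + ε) * K) with hR
  have hR0 : 0 < R := Real.rpow_pos_of_pos (by linarith) _
  have hlow : ∀ t ∈ E, R ≤ ∏ i, F (Y t i - v i) := by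
    rintro t ⟨-, ht⟩
    have h1 : ({i | |Y t i - v i| ≤ δ'} : Set (Fin K)).ncard =
        (univ.filter fun i => |Y t i - v i| ≤ δ').card := by
      rw [← Set.ncard_coe_finset]
      congr 1
      ext i
      simp
    have h2 : ∏ i ∈ univ.filter (fun i => |Y t i - v i| ≤ δ'), (1 + lam) ≤
        ∏ i, F (Y t i - v i) := by
      rw [prod_filter]
      refine prod_le_prod (fun i _ => ?_) (fun i _ => ?_)
      · split_ifs <;> linarith
      · split_ifs with h
        · have := mul_le_mul_of_nonneg_left (hf1 _ h) hlam0.le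
          show 1 + lam ≤ 1 + lam * f _
          linarith
        · exact hF1 _
    rw [prod_const, ← h1] at h2
    refine le_trans ?_ h2
    rw [hR, ← Real.rpow_natCast]
    exact Real.rpow_le_rpow_of_exponent_le (by linarith) ht
  have hint : Integrable (fun t => ∏ i, F (Y t i - v i)) (volume.restrict (Set.Icc T (2 * T))) :=
    (hPc.continuousOn.integrableOn_compact isCompact_Icc)
  have hmk := mul_meas_ge_le_integral_of_nonneg (μ := volume.restrict (Set.Icc T (2 * T)))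
    (f := fun t => ∏ i, F (Y t i - v i))
    (Eventually.of_forall fun t => prod_nonneg fun i _ => zero_le_one.trans (hF1 _)) hint R
  have hii : ∫ t in T..(2 * T), ∏ i, F (Y t i - v i) =
      ∫ t in Set.Icc T (2 * T), ∏ i, F (Y t i - v i) := by
    rw [intervalIntegral.integral_of_le (by linarith), integral_Icc_eq_integral_Ioc]
  rw [← hii] at hmk
  have hEm : volume E ≤ ENNReal.ofReal ((volume.restrict (Set.Icc T (2 * T))).real
      {t | R ≤ ∏ i, F (Y t i - v i)}) := by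
    rw [ofReal_measureReal (measure_ne_top _ _)]
    have h1 : E ⊆ Set.Icc T (2 * T) := fun t ht => ht.1
    rw [← Measure.restrict_eq_self volume h1]
    exact measure_mono fun t ht => hlow t ht
  refine hEm.trans (ENNReal.ofReal_le_ofReal ?_)
  have h1 : (volume.restrict (Set.Icc T (2 * T))).real {t | R ≤ ∏ i, F (Y t i - v i)} ≤
      (Q ^ K + Z ^ K * err) * T / R := by
    rw [le_div_iff₀ hR0, mul_comm]
    refine hmk.trans ?_
    have h2 := mul_le_mul_of_nonneg_left hmain hT.le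
    have h3 : T * (1 / T * ∫ t in T..(2 * T), ∏ i, F (Y t i - v i)) =
        ∫ t in T..(2 * T), ∏ i, F (Y t i - v i) := by
      field_simp
    rw [h3] at h2
    linarith
  refine h1.trans ?_
  have hQ0 : 0 < Q := by
    rw [hQ]
    positivity
  have h4 : Q ^ K / R ≤ Real.exp (-(c₁ * K)) := by
    rw [div_le_iff₀ hR0, hR, Real.rpow_def_of_pos (by linarith), ← Real.exp_add,
      ← Real.exp_log (pow_pos hQ0 K), Real.log_pow]
    apply Real.exp_le_exp.mpr
    have hK : (0 : ℝ) ≤ K := Nat.cast_nonneg K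
    have := mul_le_mul_of_nonneg_left hlog hK
    linarith
  have h5 : Z ^ K / R ≤ Real.exp (Real.log Z * K) := by
    have h6 : 1 ≤ R := Real.one_le_rpow (by linarith) (mul_nonneg hpe.le (Nat.cast_nonneg K))
    have h7 : Real.exp (Real.log Z * K) = Z ^ K := by
      rw [mul_comm, Real.exp_nat_mul, Real.exp_log (by linarith)]
    rw [h7]
    exact div_le_self (by positivity) h6
  have h8 : (Q ^ K + Z ^ K * err) * T / R = (Q ^ K / R + Z ^ K / R * err) * T := by
    field_simp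
  rw [h8]
  have h9 := mul_le_mul_of_nonneg_right h5 herr
  exact mul_le_mul_of_nonneg_right (by linarith) hT.le

end Pool.Agent.P8H94.EN
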