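import Mathlib

/-! # Package TAY of the project EN -/

set_option autoImplicit false

namespace Pool.Agent.P8H94.EN

open Complex

/-- the remainder -/
noncomputable def rem (n : ℕ) (z : ℂ) : ℂ :=
  cexp z - ∑ m ∈ Finset.range n, z ^ m / (m.factorial : ℂ)

theorem rem_deriv (n : ℕ) (z : ℂ) : HasDerivAt (rem (n + 1)) (rem n z) z := by
  unfold rem
  apply HasDerivAt.sub (Complex.hasDerivAt_exp z)
  have h1 : ∀ z : ℂ, ∑ m ∈ Finset.range (n + 1), z ^ m / (m.factorial : ℂ) =
      1 + ∑ m ∈ Finset.range n, z ^ (m + 1) / ((m + 1).factorial : ℂ) := by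
    intro z
    rw [Finset.sum_range_succ', add_comm]
    simp
  have h2 : (fun z : ℂ => ∑ m ∈ Finset.range (n + 1), z ^ m / (m.factorial : ℂ)) =
      fun z => 1 + ∑ m ∈ Finset.range n, z ^ (m + 1) / ((m + 1).factorial : ℂ) := funext h1
  rw [h2]
  apply HasDerivAt.const_add
  apply HasDerivAt.fun_sum
  intro m _
  have h3 := (hasDerivAt_pow (m + 1) z).div_const ((m + 1).factorial : ℂ)
  have h4 : ((m + 1 : ℕ) : ℂ) * z ^ (m + 1 - 1) / ((m + 1).factorial : ℂ) =
      z ^ m / (m.factorial : ℂ) := by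
    rw [Nat.add_sub_cancel, Nat.factorial_succ, Nat.cast_mul]
    have h5 : ((m + 1 : ℕ) : ℂ) ≠ 0 := by exact_mod_cast Nat.succ_ne_zero m
    have h6 : (m.factorial : ℂ) ≠ 0 := by exact_mod_cast Nat.factorial_ne_zero m
    field_simp
  rw [h4] at h3
  exact h3

theorem rem_bd (s : ℂ) (hs : ‖s‖ = 1) (hre : s.re = 0) (n : ℕ) : ∀ t : ℝ, 0 ≤ t →
    ‖rem n (s * t)‖ ≤ t ^ n / n.factorial := by
  induction n with
  | zero =>
    intro t ht
    unfold rem
    rw [Finset.range_zero, Finset.sum_empty, sub_zero, Complex.norm_exp]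
    simp [hre]
  | succ n ih =>
    intro t ht
    have hd : ∀ x : ℝ, HasDerivAt (fun x : ℝ => rem (n + 1) (s * x)) (rem n (s * x) * s) x := by
      intro x
      have h1 := rem_deriv n (s * x)
      have h2 : HasDerivAt (fun x : ℝ => s * (x : ℂ)) s x := by
        simpa using (Complex.ofRealCLM.hasDerivAt (x := x)).const_mul s
      exact h1.comp x h2
    have hB : ∀ x : ℝ, HasDerivAt (fun x : ℝ => x ^ (n + 1) / ((n + 1).factorial : ℝ))
        (x ^ n / (n.factorial : ℝ)) x := by
      intro x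
      have h3 := (hasDerivAt_pow (n + 1) x).div_const ((n + 1).factorial : ℝ)
      have h4 : ((n + 1 : ℕ) : ℝ) * x ^ (n + 1 - 1) / ((n + 1).factorial : ℝ) =
          x ^ n / (n.factorial : ℝ) := by
        rw [Nat.add_sub_cancel, Nat.factorial_succ, Nat.cast_mul]
        have h5 : ((n + 1 : ℕ) : ℝ) ≠ 0 := by exact_mod_cast Nat.succ_ne_zero n
        have h6 : (n.factorial : ℝ) ≠ 0 := by exact_mod_cast Nat.factorial_ne_zero n
        field_simp
      rw [h4] at h3
      exact h3
    have key := image_norm_le_of_norm_deriv_right_le_deriv_boundary (a := 0) (b := t)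
      (f := fun x : ℝ => rem (n + 1) (s * x)) (f' := fun x : ℝ => rem n (s * x) * s)
      (fun x _ => (hd x).continuousAt.continuousWithinAt)
      (fun x _ => (hd x).hasDerivWithinAt)
      (B := fun x : ℝ => x ^ (n + 1) / ((n + 1).factorial : ℝ))
      (B' := fun x : ℝ => x ^ n / (n.factorial : ℝ)) (by
        simp [rem, Finset.sum_range_succ'])
      hB (fun x hx => by
        rw [norm_mul, hs, mul_one]
        exact ih x hx.1)
    exact key (Set.right_mem_Icc.mpr ht)

theorem tay (n : ℕ) (u : ℝ) :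
    ‖cexp (I * (u : ℂ)) - ∑ m ∈ Finset.range n, (I * (u : ℂ)) ^ m / (m.factorial : ℂ)‖ ≤
      |u| ^ n / n.factorial := by
  rcases le_total 0 u with h | h
  · have := rem_bd I (by simp) (by simp) n u h
    rw [abs_of_nonneg h]
    exact this
  · have := rem_bd (-I) (by simp) (by simp) n (-u) (by linarith)
    rw [abs_of_nonpos h]
    have e : -I * ((-u : ℝ) : ℂ) = I * (u : ℂ) := by
      push_cast
      ring
    rw [e] at this
    exact this

end Pool.Agent.P8H94.EN
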