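import Pool.Agent.P8H60.EN.Stm
import Pool.Agent.P8H94.EN.TayCore
import Pool.Agent.P8H94.EN.DecCore

/-! # Packages TAY and DEC of the project EN -/

set_option autoImplicit false

namespace Pool.Agent.P8H94.EN

open Pool.Agent.P8H60.EN
open Pool.Agent.P8H60.BC (pG)

theorem t_TAY : S_TAY := tay

theorem t_DEC : S_DECA := by
  intro hTP hCHB δ ε hδ hε
  have hp : 0 ≤ pG δ := MeasureTheory.measureReal_nonneg
  exact dec_core hCHB (pG δ) ε δ hp hε (hTP δ (ε / 2) hδ (by linarith))

end Pool.Agent.P8H94.EN
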