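import Mathlib

/-!
Project EN, second round, package REC: the solutions of linear recurrences of order at most `d` are given by
polynomials in `2 d` parameters (Mathlib only).
-/

set_option autoImplicit false

namespace Pool.Agent.P8H94.EN.Rec

open Finset

/-- the polynomials: variables `l < d` for the initial values, `d + l` for the coefficients -/
noncomputable def P (d : ℕ) : ℕ → MvPolynomial (Fin (2 * d)) ℝ
  | j => if h : j < d then MvPolynomial.X ⟨j, by omega⟩ else
      ∑ l : Fin d, MvPolynomial.X ⟨d + l, by omega⟩ * P d (j - d + l)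
termination_by j => j
decreasing_by
  have := l.2
  omega

lemma P_lt {d j : ℕ} (h : j < d) : P d j = MvPolynomial.X ⟨j, by omega⟩ := by
  rw [P, dif_pos h]

lemma P_ge {d j : ℕ} (h : ¬ j < d) :
    P d j = ∑ l : Fin d, MvPolynomial.X ⟨d + l, by omega⟩ * P d (j - d + l) := by
  rw [P, dif_neg h]

lemma deg (d j : ℕ) : (P d j).totalDegree ≤ j + 1 := by
  induction j using Nat.strong_induction_on with
  | _ j ih =>
    by_cases h : j < d
    · rw [P_lt h, MvPolynomial.totalDegree_X]
      omega
    · rw [P_ge h]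
      refine MvPolynomial.totalDegree_finsetSum_le fun l _ => ?_
      refine (MvPolynomial.totalDegree_mul _ _).trans ?_
      rw [MvPolynomial.totalDegree_X]
      have h1 := l.2
      have h2 := ih (j - d + l) (by omega)
      omega

/-- the normalised recurrence -/
lemma norm {d : ℕ} {f : ℕ → ℝ} (hf : ∃ b : Fin (d + 1) → ℝ, b ≠ 0 ∧ ∀ j : ℕ, ∑ l : Fin (d + 1), b l * f (j + l) = 0) :
    ∃ a : Fin d → ℝ, ∀ j : ℕ, f (j + d) = ∑ l : Fin d, a l * f (j + l) := by
  classical
  obtain ⟨b, hb, hrec⟩ := hf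
  obtain ⟨i0, hi0⟩ : ∃ i, b i ≠ 0 := by
    by_contra hcon
    push Not at hcon
    exact hb (funext hcon)
  -- the last index
  obtain ⟨t, ht, hlast⟩ : ∃ t : Fin (d + 1), b t ≠ 0 ∧ ∀ i, b i ≠ 0 → i ≤ t := by
    have hne : ((univ : Finset (Fin (d + 1))).filter (fun i => b i ≠ 0)).Nonempty := ⟨i0, by simp [hi0]⟩
    refine ⟨_, (mem_filter.1 (max'_mem _ hne)).2, fun i hi => le_max' _ _ (by simp [hi])⟩
  have hzero : ∀ i : Fin (d + 1), t < i → b i = 0 := by
    intro i hi
    by_contra hcon
    exact absurd (hlast i hcon) (not_le.2 hi)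
  have htd : (t : ℕ) ≤ d := by omega
  -- a function on natural numbers
  obtain ⟨B, hB⟩ : ∃ B : ℕ → ℝ, B = fun n => if h : n < d + 1 then b ⟨n, h⟩ else 0 := ⟨_, rfl⟩
  have hBb : ∀ i : Fin (d + 1), b i = B i := by
    intro i
    rw [hB]
    simp only
    rw [dif_pos i.2]
  have hB0 : ∀ n, (t : ℕ) < n → B n = 0 := by
    intro n hn
    rw [hB]
    simp only
    split_ifs with h
    · exact hzero ⟨n, h⟩ hn
    · rfl
  have hBt : B t ≠ 0 := by rwa [← hBb]
  have hsum : ∀ j : ℕ, ∑ n ∈ range (t + 1), B n * f (j + n) = 0 := by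
    intro j
    have h1 := hrec j
    have h2 : ∑ l : Fin (d + 1), b l * f (j + l) = ∑ n ∈ range (d + 1), B n * f (j + n) := by
      rw [Finset.sum_range]
      exact sum_congr rfl fun l _ => by rw [hBb]
    rw [h2] at h1
    rw [← h1]
    apply sum_subset
    · intro n hn
      rw [mem_range] at hn ⊢
      omega
    · intro n _ hn
      rw [mem_range] at hn
      rw [hB0 n (by omega), zero_mul]
  refine ⟨fun l => if d - (t : ℕ) ≤ l then -(B (l - (d - t)) / B t) else 0, fun j => ?_⟩
  have h1 := hsum (j + (d - t))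
  rw [sum_range_succ] at h1
  have e1 : j + (d - (t : ℕ)) + t = j + d := by omega
  rw [e1] at h1
  have h2 : ∑ l : Fin d, (if d - (t : ℕ) ≤ (l : ℕ) then -(B (l - (d - t)) / B t) else 0) * f (j + l) =
      ∑ n ∈ range t, -(B n / B t) * f (j + (d - t) + n) := by
    rw [← Finset.sum_range (fun l => (if d - (t : ℕ) ≤ l then -(B (l - (d - t)) / B t) else 0) * f (j + l))]
    have h3 : ∀ l ∈ range d, (if d - (t : ℕ) ≤ l then -(B (l - (d - t)) / B t) else 0) * f (j + l) =
        if d - (t : ℕ) ≤ l then -(B (l - (d - t)) / B t) * f (j + l) else 0 := by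
      intro l _
      split_ifs
      · rfl
      · rw [zero_mul]
    rw [sum_congr rfl h3, ← sum_filter]
    symm
    refine sum_nbij (fun n => d - t + n) ?_ ?_ ?_ ?_
    · intro n hn
      rw [mem_range] at hn
      rw [mem_filter, mem_range]
      constructor <;> omega
    · intro n _ m _ h
      simp only at h
      omega
    · intro l hl
      rw [mem_coe, mem_filter, mem_range] at hl
      refine ⟨l - (d - t), ?_, ?_⟩
      · rw [mem_coe, mem_range]
        omega
      · simp only
        omega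
    · intro n hn
      rw [mem_range] at hn
      have e2 : d - (t : ℕ) + n - (d - t) = n := by omega
      rw [e2, add_assoc]
  rw [h2]
  have h4 : ∑ n ∈ range t, -(B n / B t) * f (j + (d - t) + n) =
      -(1 / B t) * ∑ n ∈ range t, B n * f (j + (d - t) + n) := by
    rw [mul_sum]
    exact sum_congr rfl fun n _ => by ring
  rw [h4]
  have h5 : ∑ n ∈ range t, B n * f (j + (d - t) + n) = -(B t * f (j + d)) := by linarith
  rw [h5]
  field_simp

/-- **REC** -/
theorem core (d : ℕ) : ∃ P : ℕ → MvPolynomial (Fin (2 * d)) ℝ, (∀ j, (P j).totalDegree ≤ j + 1) ∧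
    ∀ f : ℕ → ℝ, (∃ b : Fin (d + 1) → ℝ, b ≠ 0 ∧ ∀ j : ℕ, ∑ l : Fin (d + 1), b l * f (j + l) = 0) →
      ∃ x : Fin (2 * d) → ℝ, ∀ j, f j = MvPolynomial.eval x (P j) := by
  refine ⟨P d, deg d, fun f hf => ?_⟩
  obtain ⟨a, ha⟩ := norm hf
  refine ⟨fun i => if h : (i : ℕ) < d then f i else a ⟨i - d, by omega⟩, fun j => ?_⟩
  induction j using Nat.strong_induction_on with
  | _ j ih =>
    by_cases h : j < d
    · rw [P_lt h, MvPolynomial.eval_X]
      simp only
      rw [dif_pos h]
    · rw [P_ge h, map_sum]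
      have h1 := ha (j - d)
      rw [Nat.sub_add_cancel (by omega)] at h1
      rw [h1]
      refine sum_congr rfl fun l _ => ?_
      rw [map_mul, MvPolynomial.eval_X, ← ih (j - d + l) (by have := l.2; omega)]
      simp only
      rw [dif_neg (by omega)]
      congr 2
      ext
      simp

end Pool.Agent.P8H94.EN.Rec
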