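import Pool.Agent.P8H60.EN.Stm3
import Pool.Agent.P8H94.EN.RecCore

/-!
Project EN, second round, package REC (the proof is in `RecCore.lean`).
-/

set_option autoImplicit false

namespace Pool.Agent.P8H94.EN

open Pool.Agent.P8H60.EN

theorem t_REC : S_REC := by
  intro d
  obtain ⟨P, hP, h⟩ := Rec.core d
  exact ⟨P, hP, fun f hf => h f hf⟩

end Pool.Agent.P8H94.EN
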